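import Pool.Agent.Lib.MP_72b724_gt.Manifold
import Pool.Agent.Lib.MP_72b724_gt.Stmt

/-!
# MP_72b724_gt: comparison of the two forms of the definitions
-/

open scoped Manifold ContDiff ENNReal Topology
open MeasureTheory Set Bundle

namespace Pool.Agent.Lib.MP_72b724_gt.H99

open Riem

variable {n : ℕ} (M : RManifold n)

noncomputable section

instance charts' : ChartedSpace (EuclideanSpace ℝ (Fin n)) M.pts := M.charts

instance smooth' : IsManifold (𝓡 n) ∞ M.pts := M.smooth

instance bundle' : RiemannianBundle (fun x : M.pts => TangentSpace (𝓡 n) x) := M.bundle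

instance smoothMetric' : IsContMDiffRiemannianBundle (𝓡 n) ∞ (EuclideanSpace ℝ (Fin n))
    (fun x : M.pts => TangentSpace (𝓡 n) x) := M.smoothMetric

instance riemannian' : IsRiemannianManifold (𝓡 n) M.pts := M.riemannian

instance borel' : BorelSpace M.pts := ⟨rfl⟩

theorem gram_eq (x : M.pts) (y : E n) :
    M.gram x y = Pool.Agent.Lib.MP_72b724_gt.gram (M := M.pts) x y := rfl

theorem isVolume_iff (vol : Measure M.pts) :
    M.IsVolume vol ↔ IsRiemannianVolume (n := n) (M := M.pts) vol := Iff.rfl

end

end Pool.Agent.Lib.MP_72b724_gt.H99
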