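import Pool.Agent.Lib.MP_72b724_gt.Interfaces

/-!
# MP_72b724_gt: module EQM
-/

open scoped Topology
open MeasureTheory Set Filter

namespace Pool.Agent.Lib.MP_72b724_gt

namespace H99

theorem eqMean : EqMeanStatement := by
  intro Γ _ X _ hm
  classical
  -- representatives of the orbits
  let r : X → X := fun x => (Quotient.mk (MulAction.orbitRel Γ X) x).out
  have hr : ∀ x, ∃ g : Γ, g • r x = x := by
    intro x
    have h1 : (MulAction.orbitRel Γ X).r (r x) x := Quotient.exact (Quotient.out_eq _)
    have h2 : (MulAction.orbitRel Γ X).r x (r x) := (MulAction.orbitRel Γ X).symm h1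
    exact h2
  have hrg : ∀ (g : Γ) x, r (g • x) = r x := by
    intro g x
    change (Quotient.mk (MulAction.orbitRel Γ X) (g • x)).out = _
    have : Quotient.mk (MulAction.orbitRel Γ X) (g • x) = Quotient.mk _ x :=
      Quotient.sound (s := MulAction.orbitRel Γ X) (MulAction.mem_orbit x g)
    rw [this]
  choose c hc using hr
  let m : ∀ y : X, InvMean (MulAction.stabilizer Γ y) := fun y => (hm y).some
  let pl : ∀ (y : X) (a : Γ), Bdd Γ →ₗ[ℝ] Bdd (MulAction.stabilizer Γ y) :=
    fun y a => Bdd.pull (fun s : MulAction.stabilizer Γ y => a * (s : Γ))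
  have key : ∀ (y : X) (a b : Γ), a • y = b • y → ∀ f : Bdd Γ,
      (m y).m (pl y a f) = (m y).m (pl y b f) := by
    intro y a b hab f
    have hs : a⁻¹ * b ∈ MulAction.stabilizer Γ y := by
      rw [MulAction.mem_stabilizer_iff, mul_smul, ← hab, inv_smul_smul]
    have := (m y).inv ⟨a⁻¹ * b, hs⟩ (pl y a f)
    rw [← this]
    congr 1
    apply Subtype.ext
    funext s
    change f.1 (a * ((a⁻¹ * b) * (s : Γ))) = f.1 (b * (s : Γ))
    group
  refine ⟨fun x => (m (r x)).m.comp (pl (r x) (c x)), ?_, ?_, ?_⟩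
  · intro x
    exact (m (r x)).one
  · intro x f C hf
    exact (m (r x)).le _ C (fun s => hf _)
  · intro g x f
    change (m (r (g • x))).m (pl (r (g • x)) (c (g • x)) f) =
      (m (r x)).m (pl (r x) (c x) (Bdd.pull (fun h => g * h) f))
    have h1 : (m (r x)).m (pl (r x) (c x) (Bdd.pull (fun h => g * h) f)) =
        (m (r x)).m (pl (r x) (g * c x) f) := by
      congr 1
      apply Subtype.ext
      funext s
      change f.1 (g * (c x * (s : Γ))) = f.1 ((g * c x) * (s : Γ))
      rw [mul_assoc]
    rw [h1]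
    have h2 : ∀ y : X, y = r x → c (g • x) • y = g • x →
        (m y).m (pl y (c (g • x)) f) = (m (r x)).m (pl (r x) (g * c x) f) := by
      rintro y rfl hy
      refine key (r x) _ _ ?_ f
      rw [hy, mul_smul, hc x]
    exact h2 (r (g • x)) (hrg g x) (hc (g • x))

end H99

end Pool.Agent.Lib.MP_72b724_gt
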