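import Pool.Agent.Lib.MP_72b724_gt.Interfaces

/-!
# MP_72b724_gt: module FIBRE
-/

open scoped Topology
open MeasureTheory Set Filter

namespace Pool.Agent.Lib.MP_72b724_gt

namespace H99

theorem fibre_isolated {n : ℕ} {M : Type} [MetricSpace M] [MeasurableSpace M] (vol : Measure M)
    (F : M → Fin n → ℝ) (z : M) (h : Regular vol F z) :
    ∃ U ∈ 𝓝 z, ∀ x ∈ U, F x = F z → x = z := by
  obtain ⟨ψ, W, hW, h0, -, L, hL⟩ := h
  have h1 : ∀ᶠ v in 𝓝[≠] (0 : EE n), F (ψ v) ≠ F z :=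
    hL.eventually_ne ⟨_, L.antilipschitz⟩
  rw [eventually_nhdsWithin_iff] at h1
  obtain ⟨V, hV, hVo, hV0⟩ := eventually_nhds_iff.mp h1
  refine ⟨ψ '' (V ∩ W), ?_, ?_⟩
  · apply IsOpen.mem_nhds
    · exact hW.isOpenMap _ inter_subset_right (hVo.inter hW.isOpen)
    · exact ⟨0, ⟨hV0, hW.zero_mem⟩, h0⟩
  · rintro x ⟨v, ⟨hv, -⟩, rfl⟩ hx
    by_contra hne
    have hv0 : v ≠ 0 := by
      rintro rfl
      exact hne h0
    exact hV v hv hv0 hx

theorem fibre : FibreStatement := by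
  intro n M _ _ _ vol F hF t hreg
  have hcl : IsCompact {x | F x = t} := (isClosed_eq hF continuous_const).isCompact
  have h1 : ∀ x ∈ {x | F x = t}, ∃ U ∈ 𝓝 x, ∀ y ∈ U, F y = F x → y = x :=
    fun x hx => fibre_isolated vol F x (hreg x hx)
  choose! U hU hU2 using h1
  obtain ⟨s, hs, hcov⟩ := hcl.elim_nhds_subcover U hU
  refine Set.Finite.subset s.finite_toSet ?_
  intro y hy
  have h3 := hcov hy
  simp only [mem_iUnion] at h3
  obtain ⟨x, hx, hyx⟩ := h3
  have : y = x := hU2 x (hs x hx) y hyx (by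
    have h4 : F x = t := hs x hx
    rw [h4]
    exact hy)
  rw [this]
  exact hx

end H99

end Pool.Agent.Lib.MP_72b724_gt
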