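import Pool.Agent.Lib.MP_72b724_gt.Interfaces

/-!
# MP_72b724_gt, module GENLIST: generic lists
-/

open scoped ENNReal Topology BigOperators
open MeasureTheory Set Filter Topology

namespace Pool.Agent.Lib.MP_72b724_gt.H99

noncomputable section

/-- Fubini for the last coordinate. -/
theorem ae_ae_snoc {q : ℕ} {p : (Fin (q + 1) → ℝ) → Prop} (h : ∀ᵐ t : Fin (q + 1) → ℝ, p t) :
    ∀ᵐ s : ℝ, ∀ᵐ t : Fin q → ℝ, p (Fin.snoc t s) := by
  have hmp := (volume_preserving_piFinSuccAbove (fun _ : Fin (q + 1) => ℝ) (Fin.last q)).symm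
  have h1 := hmp.quasiMeasurePreserving.ae h
  have h2 := Measure.ae_ae_of_ae_prod h1
  filter_upwards [h2] with s hs
  filter_upwards [hs] with t ht
  convert ht using 1
  funext i
  refine Fin.lastCases ?_ (fun i => ?_) i
  · simp [MeasurableEquiv.piFinSuccAbove]
  · simp [MeasurableEquiv.piFinSuccAbove]

variable {M : Type} [MetricSpace M] [MeasurableSpace M] (vol : Measure M)
  {ι : Type} (f : ι → M → ℝ) (n : ℕ)

/-- The regularity condition for lists of length `n`. -/
def Reg (l : List (ι × ℝ)) : Prop :=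
  ∀ g : Fin n → ι × ℝ, List.ofFn g = l → ∀ x, (∀ k, f (g k).1 x = (g k).2) →
    Regular vol (fun y k => f (g k).1 y) x

/-- The condition on lists. -/
def PP (l : List (ι × ℝ)) : Prop :=
  Reg vol f n l ∧ ∀ g : Fin (n + 1) → ι × ℝ, List.ofFn g = l → ¬ ∃ x, ∀ k, f (g k).1 x = (g k).2

variable {f n}

theorem reg_of_length {l : List (ι × ℝ)} (h : l.length ≠ n) : Reg vol f n l := by
  intro g hg
  exact absurd (by rw [← hg, List.length_ofFn]) h

theorem pp_of_length {l : List (ι × ℝ)} (h : l.length < n) : PP vol f n l := by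
  refine ⟨reg_of_length vol h.ne, fun g hg => ?_⟩
  have : l.length = n + 1 := by rw [← hg, List.length_ofFn]
  omega

/-- Adding one entry to a regular list of length `n`. -/
theorem pp_cons [CompactSpace M] (hF : FibreStatement) (hf : ∀ i, LipschitzWith 1 (f i))
    {l : List (ι × ℝ)} (hl : l.length = n) (h : Reg vol f n l) (i : ι) :
    ∀ᵐ s : ℝ, PP vol f n ((i, s) :: l) := by
  obtain ⟨g, hg⟩ : ∃ g : Fin n → ι × ℝ, List.ofFn g = l := by
    subst hl
    exact ⟨l.get, List.ofFn_get l⟩
  have hfin : {x | (fun k => f (g k).1 x) = fun k => (g k).2}.Finite := by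
    refine hF n M vol (fun x k => f (g k).1 x) ?_ _ ?_
    · exact continuous_pi fun k => (hf _).continuous
    · intro x hx
      exact h g hg x fun k => congrFun hx k
  have hfin2 : (f i '' {x | (fun k => f (g k).1 x) = fun k => (g k).2}).Finite := hfin.image _
  have hae : ∀ᵐ s : ℝ, s ∉ f i '' {x | (fun k => f (g k).1 x) = fun k => (g k).2} :=
    measure_eq_zero_iff_ae_notMem.mp (hfin2.measure_zero volume)
  filter_upwards [hae] with s hs
  refine ⟨reg_of_length vol (by simp [hl]), fun g' hg' hx => ?_⟩
  obtain ⟨x, hx⟩ := hx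
  rw [List.ofFn_succ, List.cons.injEq] at hg'
  have h2 : (fun k : Fin n => g' k.succ) = g := List.ofFn_injective (hg'.2.trans hg.symm)
  refine hs ⟨x, ?_, ?_⟩
  · funext k
    rw [← h2]
    exact hx k.succ
  · have := hx 0
    rw [hg'.1] at this
    exact this

/-- The hereditary condition. -/
theorem gen0_of [CompactSpace M] [Finite ι] (hF : FibreStatement)
    (hf : ∀ i, LipschitzWith 1 (f i)) (q : ℕ) :
    ∀ l : List (ι × ℝ), l.length + q = n →
      (∀ j : Fin q → ι, ∀ᵐ t : Fin q → ℝ, Reg vol f n (List.ofFn (fun k => (j k, t k)) ++ l)) →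
      Gen0 (PP vol f n) (q + 1) l := by
  induction q with
  | zero =>
    intro l hl h
    have h1 : Reg vol f n l := by
      obtain ⟨t, ht⟩ := (h Fin.elim0).exists
      simpa using ht
    refine ⟨⟨h1, fun g hg => ?_⟩, fun i => ?_⟩
    · have : l.length = n + 1 := by rw [← hg, List.length_ofFn]
      omega
    · exact pp_cons vol hF hf (by omega) h1 i
  | succ q ih =>
    intro l hl h
    refine ⟨pp_of_length vol (by omega), fun i => ?_⟩
    have h1 : ∀ j : Fin q → ι, ∀ᵐ s : ℝ, ∀ᵐ t : Fin q → ℝ,
        Reg vol f n (List.ofFn (fun k => (j k, t k)) ++ (i, s) :: l) := by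
      intro j
      have h2 := ae_ae_snoc (h (Fin.snoc j i))
      filter_upwards [h2] with s hs
      filter_upwards [hs] with t ht
      rw [List.ofFn_succ'] at ht
      simpa using ht
    have h3 : ∀ᵐ s : ℝ, ∀ j : Fin q → ι, ∀ᵐ t : Fin q → ℝ,
        Reg vol f n (List.ofFn (fun k => (j k, t k)) ++ (i, s) :: l) := ae_all_iff.mpr h1
    filter_upwards [h3] with s hs
    exact ih ((i, s) :: l) (by simp; omega) hs

/-- [GENLIST] -/
theorem genList (hC : CritStatement) (hF : FibreStatement) : GenListStatement := by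
  intro n M _ _ _ _ vol hE ι _ f hf
  refine ⟨fun L => ∀ l, l.Sublist L → l.length ≤ n + 1 →
    Gen0 (PP vol f n) (n + 1 - l.length) l, ?_, ?_, ?_, ?_⟩
  · intro l hl _
    rw [List.sublist_nil] at hl
    subst hl
    refine gen0_of vol hF hf n [] (by simp) fun j => ?_
    have h1 := hC n M vol hE (fun x k => f (j k) x) (fun k => hf (j k))
    have h2 := measure_eq_zero_iff_ae_notMem.mp h1
    filter_upwards [h2] with t ht
    intro g hg x hx
    rw [List.append_nil] at hg
    have hg' := List.ofFn_injective hg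
    subst hg'
    by_contra hcon
    exact ht ⟨x, funext hx, hcon⟩
  · intro L hL i
    have hfin : {l : List (ι × ℝ) | l.Sublist L}.Countable := by
      refine Set.Finite.countable ?_
      refine (List.finite_toSet L.sublists).subset ?_
      intro l hl
      exact List.mem_sublists.mpr hl
    have h1 : ∀ᵐ ρ : ℝ, ∀ l ∈ {l : List (ι × ℝ) | l.Sublist L}, l.length ≤ n →
        Gen0 (PP vol f n) (n - l.length) ((i, ρ) :: l) := by
      refine (ae_ball_iff hfin).mpr fun l hl => ?_
      by_cases hln : l.length ≤ n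
      · have h2 := hL l hl (by omega)
        have h3 : n + 1 - l.length = (n - l.length) + 1 := by omega
        rw [h3] at h2
        filter_upwards [h2.2 i] with ρ hρ _
        exact hρ
      · exact Eventually.of_forall fun ρ h => absurd h hln
    filter_upwards [h1] with ρ hρ
    intro l hl hlen
    rcases List.sublist_cons_iff.mp hl with h2 | ⟨r, rfl, h2⟩
    · exact hL l h2 hlen
    · have h3 := hρ r h2 (by simpa using hlen)
      have h4 : n + 1 - ((i, ρ) :: r).length = n - r.length := by simp
      rw [h4]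
      exact h3
  · intro L hL l hl x hx
    have h1 := hL _ hl (by simp)
    rw [List.length_ofFn, show n + 1 - n = 0 + 1 by omega] at h1
    exact h1.1.1 l rfl x hx
  · intro L hL l hl
    have h1 := hL _ hl (by simp)
    rw [List.length_ofFn, Nat.sub_self] at h1
    exact h1.2 l rfl

end

end Pool.Agent.Lib.MP_72b724_gt.H99
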