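import Pool.Agent.Lib.MP_72b724_gt.Interfaces

/-!
# MP_72b724_gt: module NUM
-/

open scoped Nat

namespace Pool.Agent.Lib.MP_72b724_gt

namespace H99

theorem num : NumStatement := by
  intro n hn
  have hf : (1 : ℝ) ≤ (n.factorial : ℝ) := by exact_mod_cast Nat.factorial_pos n
  have h96 : (1 : ℝ) ≤ 96 ^ n := one_le_pow₀ (by norm_num)
  have hE : (1 : ℝ) < Real.exp 1 := by
    have := Real.add_one_lt_exp (x := 1) (by norm_num)
    linarith
  set F : ℝ := (n.factorial : ℝ) with hF
  refine ⟨4 * F * F * 96 ^ n * Real.exp 1, ?_, ?_⟩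
  · have h1 : (1 : ℝ) ≤ 4 * F * 96 ^ n * Real.exp 1 := by
      have : (1 : ℝ) ≤ 4 * F := by linarith
      have h2 : (1 : ℝ) ≤ 4 * F * 96 ^ n := one_le_mul_of_one_le_of_one_le this h96
      exact one_le_mul_of_one_le_of_one_le h2 hE.le
    calc F = F * 1 := (mul_one F).symm
      _ ≤ F * (4 * F * 96 ^ n * Real.exp 1) := mul_le_mul_of_nonneg_left h1 (by linarith)
      _ = _ := by ring
  · intro v hv
    have hv0 : 0 < v := lt_of_lt_of_le (by positivity) hv
    have hFv : 1 ≤ F * v := by
      rw [div_le_iff₀ (by linarith)] at hv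
      linarith
    set C : ℝ := 4 * F * F * 96 ^ n * Real.exp 1 with hC
    have hCpos : 0 < C := by positivity
    have hCv : Real.exp 1 ≤ C * v := by
      have h1 : 1 ≤ 4 * F * 96 ^ n * (F * v) :=
        one_le_mul_of_one_le_of_one_le
          (one_le_mul_of_one_le_of_one_le (by linarith) h96) hFv
      calc Real.exp 1 = 1 * Real.exp 1 := (one_mul _).symm
        _ ≤ (4 * F * 96 ^ n * (F * v)) * Real.exp 1 :=
          mul_le_mul_of_nonneg_right h1 (Real.exp_pos 1).le
        _ = C * v := by rw [hC]; ring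
    set L : ℝ := Real.log (C * v) with hL
    have hL1 : 1 ≤ L := by
      rw [hL, Real.le_log_iff_exp_le (by positivity)]
      exact hCv
    have hexpL : Real.exp L = C * v := Real.exp_log (by positivity)
    refine ⟨⌈2 * L⌉₊, ?_, ?_, ?_⟩
    · rw [Nat.one_le_ceil_iff]
      linarith
    · have hK1 : 2 * L ≤ (⌈2 * L⌉₊ : ℝ) := Nat.le_ceil _
      have hK2 : (⌈2 * L⌉₊ : ℝ) < 2 * L + 1 := Nat.ceil_lt_add_one (by linarith)
      set K : ℝ := (⌈2 * L⌉₊ : ℝ)
      have h32 : (32 * K) ^ n ≤ 96 ^ n * L ^ n := by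
        rw [← mul_pow]
        apply pow_le_pow_left₀ (by linarith)
        linarith
      have hLn : L ^ n ≤ F * Real.exp L := by
        have := Real.pow_div_factorial_le_exp L (by linarith) n
        rw [div_le_iff₀ (by positivity)] at this
        linarith
      have h2 : 2 * F * v * (32 * K) ^ n ≤ 2 * F * v * (96 ^ n * (F * Real.exp L)) := by
        apply mul_le_mul_of_nonneg_left _ (by positivity)
        exact h32.trans (mul_le_mul_of_nonneg_left hLn (by positivity))
      have h3 : 2 * F * v * (96 ^ n * (F * Real.exp L)) < C * v * Real.exp L := by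
        have : 2 * F * v * (96 ^ n * (F * Real.exp L)) = (2 * F * F * 96 ^ n) * (v * Real.exp L) := by
          ring
        rw [this, mul_assoc C v]
        apply mul_lt_mul_of_pos_right _ (by positivity)
        have h4 : 0 < F * F * 96 ^ n := by positivity
        rw [hC]
        nlinarith
      have h4 : C * v * Real.exp L = Real.exp (2 * L) := by
        rw [← hexpL, ← Real.exp_add]
        congr 1
        ring
      calc 2 * F * v * (32 * K) ^ n ≤ _ := h2
        _ < _ := h3
        _ = Real.exp (2 * L) := h4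
        _ ≤ Real.exp K := Real.exp_le_exp.mpr hK1
    · have hK2 : (⌈2 * L⌉₊ : ℝ) < 2 * L + 1 := Nat.ceil_lt_add_one (by linarith)
      have hK1 : 2 * L ≤ (⌈2 * L⌉₊ : ℝ) := Nat.le_ceil _
      set K : ℝ := (⌈2 * L⌉₊ : ℝ)
      have h32 : (32 * K) ^ n ≤ 96 ^ n * L ^ n := by
        rw [← mul_pow]
        apply pow_le_pow_left₀ (by linarith)
        linarith
      calc 4 * F * (32 * K) ^ n * v ≤ 4 * F * (96 ^ n * L ^ n) * v := by
            apply mul_le_mul_of_nonneg_right _ hv0.le
            exact mul_le_mul_of_nonneg_left h32 (by positivity)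
        _ = (4 * F * 96 ^ n) * (v * L ^ n) := by ring
        _ ≤ C * (v * L ^ n) := by
            apply mul_le_mul_of_nonneg_right _ (by positivity)
            have h5 : 1 ≤ F * Real.exp 1 := one_le_mul_of_one_le_of_one_le hf hE.le
            calc 4 * F * 96 ^ n = 4 * F * 96 ^ n * 1 := (mul_one _).symm
              _ ≤ 4 * F * 96 ^ n * (F * Real.exp 1) := mul_le_mul_of_nonneg_left h5 (by positivity)
              _ = C := by rw [hC]; ring
        _ = C * v * L ^ n := by ring

end H99

end Pool.Agent.Lib.MP_72b724_gt
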