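import Pool.Agent.Lib.MP_72b724_gt.H99.SepStage

/-!
# MP_72b724_gt, module SEPITER: the successive minimisation
-/

open scoped ENNReal Topology BigOperators
open MeasureTheory Set Filter Topology

namespace Pool.Agent.Lib.MP_72b724_gt.H99

set_option linter.unusedSectionVars false

noncomputable section

variable {M : Type} [MetricSpace M] [MeasurableSpace M]

/-- The intersection of the first `q` slabs. -/
def AA {ι : Type} (f : ι → M → ℝ) {k : ℕ} (L : Fin k → List (ι × ℝ)) (q : ℕ) (ε : ℝ) : Set M :=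
  {x | ∀ i : Fin k, (i : ℕ) < q → x ∈ Slab f ε (L i)}

/-- The inequality of stage `q`. -/
def Star (vol : Measure M) {ι : Type} (f : ι → M → ℝ) (b : ι → ℝ) {k : ℕ}
    (L : Fin k → List (ι × ℝ)) (err : ℝ) (q : ℕ) (e : ℕ → ℝ) : Prop :=
  ∀ (i : ι) (τ t : ℝ), 0 ≤ τ → τ < t → t < b i →
    ∫⁻ s in Ioo τ t, liminf (fun j => wv vol (q + 1) (e j) (AA f L (q + 1) (e j) ∩ {x | f i x < s})) atTop ≤
      liminf (fun j => wv vol q (e j) (AA f L q (e j) ∩ {x | f i x < t})) atTop +
        ENNReal.ofReal (err * (t - τ))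

theorem AA_snoc_lt {ι : Type} (f : ι → M → ℝ) {k : ℕ} (L : Fin k → List (ι × ℝ))
    (l : List (ι × ℝ)) {q : ℕ} (hq : q ≤ k) (ε : ℝ) :
    AA f (Fin.snoc L l : Fin (k + 1) → List (ι × ℝ)) q ε = AA f L q ε := by
  ext x
  constructor
  · intro h i hi
    have := h i.castSucc (by simpa using hi)
    simpa using this
  · intro h i
    refine Fin.lastCases ?_ (fun i => ?_) i
    · intro hi
      simp at hi
      omega
    · intro hi
      have := h i (by simpa using hi)
      simpa using this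

theorem AA_snoc_last {ι : Type} (f : ι → M → ℝ) {k : ℕ} (L : Fin k → List (ι × ℝ))
    (l : List (ι × ℝ)) (ε : ℝ) :
    AA f (Fin.snoc L l : Fin (k + 1) → List (ι × ℝ)) (k + 1) ε = AA f L k ε ∩ Slab f ε l := by
  ext x
  constructor
  · intro h
    refine ⟨fun i _ => ?_, ?_⟩
    · have := h i.castSucc (by simp)
      simpa using this
    · have := h (Fin.last k) (by simp)
      simpa using this
  · rintro ⟨h1, h2⟩ i
    refine Fin.lastCases ?_ (fun i => ?_) i
    · intro _
      simpa using h2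
    · intro hi
      have := h1 i i.2
      simpa using this

theorem catL_snoc {ι : Type} {k : ℕ} (L : Fin k → List (ι × ℝ)) (l : List (ι × ℝ)) :
    catL (Fin.snoc L l : Fin (k + 1) → List (ι × ℝ)) = l ++ catL L := by
  unfold catL
  rw [List.ofFn_succ']
  simp

variable [BorelSpace M]

theorem measurableSet_AA {ι : Type} {f : ι → M → ℝ} (hf : ∀ i, Continuous (f i)) {k : ℕ}
    (L : Fin k → List (ι × ℝ)) (q : ℕ) (ε : ℝ) : MeasurableSet (AA f L q ε) := by
  have : AA f L q ε = ⋂ i : Fin k, ⋂ _ : (i : ℕ) < q, Slab f ε (L i) := by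
    ext x
    simp only [AA, mem_ofPred_eq, mem_iInter]
  rw [this]
  exact MeasurableSet.iInter fun i => MeasurableSet.iInter fun _ => measurableSet_slab hf ε (L i)

theorem stages (hS : SepStageFor M) (vol : Measure M) [IsFiniteMeasure vol] {ι : Type} [Finite ι]
    {f : ι → M → ℝ} {b : ι → ℝ} (hf : ∀ i, Continuous (f i)) {Gen : List (ι × ℝ) → Prop}
    (hG0 : Gen []) (hG : ∀ L, Gen L → ∀ i, ∀ᵐ ρ : ℝ, Gen ((i, ρ) :: L))
    (hβ : ∃ β : ι → ℝ, (∀ i, 0 ≤ β i ∧ β i < b i) ∧ ∀ x, ∃ i, f i x < β i)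
    {err : ℝ} (herr : 0 < err) (k : ℕ) :
    ∃ (L : Fin k → List (ι × ℝ)) (e : ℕ → ℝ), (∀ j, 0 < e j) ∧ Tendsto e atTop (𝓝 0) ∧
      Gen (catL L) ∧ (∀ k, Covers f (L k)) ∧ (∀ k, ∀ p ∈ L k, 0 < p.2 ∧ p.2 < b p.1) ∧
      (∃ C : ℝ≥0∞, C ≠ ⊤ ∧ ∀ j, wv vol k (e j) (AA f L k (e j)) ≤ C) ∧
      ∀ φ : ℕ → ℕ, StrictMono φ → ∀ q < k, Star vol f b L err q (e ∘ φ) := by
  induction k with
  | zero =>
    refine ⟨Fin.elim0, fun j => 1 / ((j : ℝ) + 1), fun j => by positivity,
      tendsto_one_div_add_atTop_nhds_zero_nat, ?_, fun k => k.elim0, fun k => k.elim0,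
      ⟨vol univ, measure_ne_top _ _, fun j => ?_⟩, fun φ _ q hq => absurd hq (Nat.not_lt_zero q)⟩
    · have : catL (Fin.elim0 : Fin 0 → List (ι × ℝ)) = [] := by simp [catL]
      rw [this]
      exact hG0
    · unfold wv
      rw [pow_zero, inv_one, ENNReal.ofReal_one, one_mul]
      exact measure_mono (subset_univ _)
  | succ k ih =>
    obtain ⟨L, e, he, hlim, hgen, hcov, hrad, ⟨C, hC, hCb⟩, hstar⟩ := ih
    obtain ⟨l, φ, hφ, g1, g2, g3, ⟨C', hC', hCb'⟩, g5⟩ := hS vol ι f b hf
      (fun l => Gen (l ++ catL L)) (by simpa using hgen)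
      (fun l hl i => by simpa using hG (l ++ catL L) hl i) hβ k (AA f L k)
      (measurableSet_AA hf L k) e he hlim C hC hCb err herr
    refine ⟨Fin.snoc L l, e ∘ φ, fun j => he _, hlim.comp hφ.tendsto_atTop, ?_, ?_, ?_,
      ⟨C', hC', fun j => ?_⟩, ?_⟩
    · rw [catL_snoc]
      exact g1
    · intro i
      refine Fin.lastCases ?_ (fun i => ?_) i
      · simpa using g2
      · simpa using hcov i
    · intro i
      refine Fin.lastCases ?_ (fun i => ?_) i
      · simpa using g3
      · simpa using hrad i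
    · rw [AA_snoc_last]
      exact hCb' j
    · intro φ' hφ' q hq
      rcases Nat.lt_succ_iff_lt_or_eq.mp hq with hq | rfl
      · have h := hstar (φ ∘ φ') (hφ.comp hφ') q hq
        intro i τ t h1 h2 h3
        have h4 := h i τ t h1 h2 h3
        simp only [AA_snoc_lt f L l (show q + 1 ≤ k by omega), AA_snoc_lt f L l (show q ≤ k by omega)]
        exact h4
      · intro i τ t h1 h2 h3
        have h4 := g5 φ' hφ' i τ t h1 h2 h3
        simp only [AA_snoc_last, AA_snoc_lt f L l le_rfl]
        exact h4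

/-- The integral of a power. -/
theorem lintegral_power (N : ℝ) (hN : 0 ≤ N) (q : ℕ) {τ t : ℝ} (h : τ < t) :
    ∫⁻ s in Ioo τ t, ENNReal.ofReal (N * (s - τ) ^ q / (q.factorial : ℝ)) =
      ENNReal.ofReal (N * (t - τ) ^ (q + 1) / ((q + 1).factorial : ℝ)) := by
  have h1 : ∫ s in τ..t, N * (s - τ) ^ q / (q.factorial : ℝ) =
      N * (t - τ) ^ (q + 1) / ((q + 1).factorial : ℝ) := by
    have : ∀ s : ℝ, N * (s - τ) ^ q / (q.factorial : ℝ) = N / (q.factorial : ℝ) * (s - τ) ^ q :=
      fun s => by ring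
    simp only [this]
    rw [intervalIntegral.integral_const_mul,
      intervalIntegral.integral_comp_sub_right (fun x => x ^ q) τ, integral_pow, sub_self,
      Nat.factorial_succ]
    push_cast
    have h2 : (q.factorial : ℝ) ≠ 0 := by positivity
    have h3 : (q : ℝ) + 1 ≠ 0 := by positivity
    field_simp
    ring
  rw [← h1, intervalIntegral.integral_of_le h.le, integral_Ioc_eq_integral_Ioo,
    ofReal_integral_eq_lintegral_ofReal]
  · have hc : Continuous fun s : ℝ => N * (s - τ) ^ q / (q.factorial : ℝ) := by fun_prop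
    exact (hc.integrableOn_Icc (a := τ) (b := t)).mono_set Ioo_subset_Icc_self
  · rw [EventuallyLE, ae_restrict_iff' measurableSet_Ioo]
    refine Eventually.of_forall fun s hs => ?_
    have : 0 ≤ s - τ := by linarith [hs.1]
    change 0 ≤ N * (s - τ) ^ q / (q.factorial : ℝ)
    positivity

/-- [SEPITER] -/
theorem sepIter (hS : SepStageStatement) : SepIterStatement := by
  intro n M _ _ _ _ vol _ ι _ f b hf Gen hG0 hG hβ err herr
  obtain ⟨B, hB⟩ : ∃ B : ℝ, 1 ≤ B ∧ ∀ i, b i ≤ B := by
    obtain ⟨B, hB⟩ := (Set.finite_range b).bddAbove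
    exact ⟨max 1 B, le_max_left _ _, fun i => (hB (mem_range_self i)).trans (le_max_right _ _)⟩
  obtain ⟨hB1, hB⟩ := hB
  set e₁ : ℝ := err / (n * B ^ n + 1) with he₁
  have hBn : 0 ≤ (n : ℝ) * B ^ n := by positivity
  have he₁0 : 0 < e₁ := by positivity
  obtain ⟨L, e, he, hlim, hgen, hcov, hrad, -, hstar⟩ := stages (hS M) vol hf hG0 hG hβ he₁0 n
  refine ⟨L, e, he, hlim, hgen, hcov, hrad, ?_⟩
  intro i τ t N hτ hτt htb hN
  have hst : ∀ q < n, Star vol f b L e₁ q e := fun q hq => hstar id strictMono_id q hq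
  have key : ∀ q : ℕ, q ≤ n → ∀ t, τ < t → t < b i →
      ENNReal.ofReal (N * (t - τ) ^ q / (q.factorial : ℝ)) ≤
        liminf (fun j => wv vol (n - q) (e j) (AA f L (n - q) (e j) ∩ {x | f i x < t})) atTop +
          ENNReal.ofReal (e₁ * q * B ^ q) := by
    intro q
    induction q with
    | zero =>
      intro _ t ht _
      have h1 := hN t ht
      have h2 : ∀ ε, (⋂ k, Slab f ε (L k)) = AA f L (n - 0) ε := by
        intro ε
        ext x
        simp only [mem_iInter, AA, mem_ofPred_eq, Nat.sub_zero]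
        exact ⟨fun h i _ => h i, fun h i => h i i.2⟩
      simp only [h2] at h1
      simpa using h1
    | succ q ih =>
      intro hq t ht htb
      have ih' := ih (by omega)
      have h1 := hst (n - (q + 1)) (by omega) i τ t hτ ht htb
      have e1 : n - (q + 1) + 1 = n - q := by omega
      rw [e1] at h1
      have h2 : ∫⁻ s in Ioo τ t, ENNReal.ofReal (N * (s - τ) ^ q / (q.factorial : ℝ)) ≤
          ∫⁻ s in Ioo τ t, (liminf (fun j => wv vol (n - q) (e j)
            (AA f L (n - q) (e j) ∩ {x | f i x < s})) atTop + ENNReal.ofReal (e₁ * q * B ^ q)) := by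
        refine setLIntegral_mono_ae' measurableSet_Ioo ?_
        exact Eventually.of_forall fun s hs => ih' s hs.1 (hs.2.trans htb)
      rw [lintegral_power N (Nat.cast_nonneg N) q ht, lintegral_add_right _ measurable_const,
        setLIntegral_const, Real.volume_Ioo, ← ENNReal.ofReal_mul (by positivity)] at h2
      refine h2.trans ((add_le_add_left h1 _).trans ?_)
      rw [add_assoc]
      refine add_le_add_right ?_ _
      have h3 : 0 ≤ t - τ := by linarith
      rw [← ENNReal.ofReal_add (by positivity) (by positivity)]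
      refine ENNReal.ofReal_le_ofReal ?_
      have h4 : t - τ ≤ B := by linarith [hB i]
      have h5 : 1 ≤ B ^ q := one_le_pow₀ hB1
      push_cast
      have h6 : e₁ * (t - τ) ≤ e₁ * B ^ (q + 1) := by
        refine mul_le_mul_of_nonneg_left ?_ he₁0.le
        rw [pow_succ]
        nlinarith
      have h7 : e₁ * q * B ^ q * (t - τ) ≤ e₁ * q * B ^ q * B :=
        mul_le_mul_of_nonneg_left h4 (by positivity)
      calc e₁ * (t - τ) + e₁ * q * B ^ q * (t - τ) ≤ e₁ * B ^ (q + 1) + e₁ * q * B ^ q * B :=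
            add_le_add h6 h7
        _ = e₁ * (q + 1) * B ^ (q + 1) := by ring
  have h1 := key n le_rfl t hτt htb
  refine h1.trans (add_le_add ?_ (ENNReal.ofReal_le_ofReal ?_))
  · rw [Nat.sub_self]
    have : ∀ j, wv vol 0 (e j) (AA f L 0 (e j) ∩ {x | f i x < t}) = vol {x | f i x < t} := by
      intro j
      unfold wv
      rw [pow_zero, inv_one, ENNReal.ofReal_one, one_mul]
      congr 1
      ext x
      simp [AA]
    simp only [this]
    exact le_of_eq (liminf_const _)
  · rw [he₁]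
    have : err / (↑n * B ^ n + 1) * ↑n * B ^ n = err * ((n * B ^ n) / (n * B ^ n + 1)) := by ring
    rw [this]
    have h2 : (n * B ^ n) / (n * B ^ n + 1) ≤ 1 := by
      rw [div_le_one (by positivity)]
      linarith
    nlinarith

end

end Pool.Agent.Lib.MP_72b724_gt.H99
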