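import Pool.Agent.Lib.MP_72b724_gt.Interfaces

/-!
# MP_72b724_gt, module SEPSTAGE: one step of the successive minimisation
-/

open scoped ENNReal Topology BigOperators
open MeasureTheory Set Filter Topology

namespace Pool.Agent.Lib.MP_72b724_gt.H99

set_option linter.unusedSectionVars false

noncomputable section

section Basic

variable {M : Type} [MetricSpace M] [MeasurableSpace M] (vol : Measure M)

theorem wv_mono {k : ℕ} {e : ℝ} {A B : Set M} (h : A ⊆ B) : wv vol k e A ≤ wv vol k e B :=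
  mul_le_mul_right (measure_mono h) _

theorem wv_union_le {k : ℕ} {e : ℝ} (A B : Set M) :
    wv vol k e (A ∪ B) ≤ wv vol k e A + wv vol k e B := by
  unfold wv
  rw [← mul_add]
  exact mul_le_mul_right (measure_union_le A B) _

theorem wv_split {k : ℕ} {e : ℝ} (A : Set M) {B : Set M} (hB : MeasurableSet B) :
    wv vol k e (A ∩ B) + wv vol k e (A ∩ Bᶜ) = wv vol k e A := by
  unfold wv
  rw [← mul_add, ← sdiff_eq, measure_inter_add_sdiff A hB]

theorem wv_ne_top [IsFiniteMeasure vol] {k : ℕ} {e : ℝ} (A : Set M) : wv vol k e A ≠ ⊤ :=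
  ENNReal.mul_ne_top ENNReal.ofReal_ne_top (measure_ne_top vol A)

theorem wv_empty {k : ℕ} {e : ℝ} : wv vol k e (∅ : Set M) = 0 := by
  unfold wv
  rw [measure_empty, mul_zero]

variable [BorelSpace M]

theorem measurableSet_slab {ι : Type} {f : ι → M → ℝ} (hf : ∀ i, Continuous (f i)) (ε : ℝ)
    (L : List (ι × ℝ)) : MeasurableSet (Slab f ε L) := by
  induction L with
  | nil => exact MeasurableSet.empty
  | cons p L ih =>
    unfold Slab
    refine MeasurableSet.union ?_ (MeasurableSet.inter ?_ ih)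
    · exact (measurableSet_le measurable_const (hf p.1).measurable).inter
        (measurableSet_lt (hf p.1).measurable measurable_const)
    · exact measurableSet_le measurable_const (hf p.1).measurable

variable [IsFiniteMeasure vol]

/-- The coarea inequality for slabs. -/
theorem int_Y {A : Set M} (hA : MeasurableSet A) {g : M → ℝ} (hg : Measurable g) (k : ℕ) {e : ℝ}
    (he : 0 < e) (τ t : ℝ) :
    Measurable (fun s : ℝ => wv vol (k + 1) e (A ∩ {x | s ≤ g x ∧ g x < s + e})) ∧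
    ∫⁻ s in Ioo τ t, wv vol (k + 1) e (A ∩ {x | s ≤ g x ∧ g x < s + e}) ≤
      wv vol k e (A ∩ {x | g x < t + e}) := by
  have hP : MeasurableSet {p : ℝ × M | p.2 ∈ A ∧ p.1 ≤ g p.2 ∧ g p.2 < p.1 + e} := by
    refine (measurable_snd hA).inter (MeasurableSet.inter ?_ ?_)
    · exact measurableSet_le measurable_fst (hg.comp measurable_snd)
    · exact measurableSet_lt (hg.comp measurable_snd) (measurable_fst.add measurable_const)
  have hQ : MeasurableSet {p : ℝ × M | p.1 ∈ Ioo τ t ∧ p.2 ∈ A ∧ p.1 ≤ g p.2 ∧ g p.2 < p.1 + e} :=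
    (measurable_fst measurableSet_Ioo).inter hP
  have hm : Measurable (fun s : ℝ => vol (A ∩ {x | s ≤ g x ∧ g x < s + e})) :=
    measurable_measure_prodMk_left hP
  refine ⟨hm.const_mul _, ?_⟩
  unfold wv
  rw [lintegral_const_mul _ hm]
  have h1 : ∫⁻ s in Ioo τ t, vol (A ∩ {x | s ≤ g x ∧ g x < s + e}) =
      (volume.prod vol) {p : ℝ × M | p.1 ∈ Ioo τ t ∧ p.2 ∈ A ∧ p.1 ≤ g p.2 ∧ g p.2 < p.1 + e} := by
    rw [Measure.prod_apply hQ, ← lintegral_indicator measurableSet_Ioo]
    refine lintegral_congr fun s => ?_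
    by_cases hs : s ∈ Ioo τ t
    · rw [indicator_of_mem hs]
      congr 1
      ext x
      exact ⟨fun h => ⟨hs, h.1, h.2⟩, fun h => ⟨h.2.1, h.2.2⟩⟩
    · rw [indicator_of_notMem hs]
      symm
      convert measure_empty (μ := vol)
      ext x
      simp only [mem_preimage, mem_ofPred_eq, mem_empty_iff_false, iff_false]
      exact fun h => hs h.1
  rw [h1, Measure.prod_apply_symm hQ]
  have h2 : ∀ x : M, volume ((fun s => (s, x)) ⁻¹'
      {p : ℝ × M | p.1 ∈ Ioo τ t ∧ p.2 ∈ A ∧ p.1 ≤ g p.2 ∧ g p.2 < p.1 + e}) ≤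
      (A ∩ {x | g x < t + e}).indicator (fun _ => ENNReal.ofReal e) x := by
    intro x
    by_cases hx : x ∈ A ∩ {x | g x < t + e}
    · rw [indicator_of_mem hx]
      calc volume ((fun s => (s, x)) ⁻¹'
          {p : ℝ × M | p.1 ∈ Ioo τ t ∧ p.2 ∈ A ∧ p.1 ≤ g p.2 ∧ g p.2 < p.1 + e})
          ≤ volume (Ioc (g x - e) (g x)) := by
            refine measure_mono ?_
            rintro s ⟨-, -, h3, h4⟩
            simp only at h3 h4
            exact ⟨by linarith, h3⟩
        _ = ENNReal.ofReal e := by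
            rw [Real.volume_Ioc]
            congr 1
            ring
    · rw [indicator_of_notMem hx]
      refine le_of_eq ?_
      convert measure_empty (μ := (volume : Measure ℝ))
      ext s
      simp only [mem_preimage, mem_ofPred_eq, mem_empty_iff_false, iff_false]
      rintro ⟨h3, h4, h5, h6⟩
      exact hx ⟨h4, by
        change g x < t + e
        linarith [h3.2]⟩
  have hmeas : MeasurableSet (A ∩ {x | g x < t + e}) :=
    hA.inter (measurableSet_lt hg measurable_const)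
  calc ENNReal.ofReal ((e ^ (k + 1))⁻¹) * ∫⁻ x, volume ((fun s => (s, x)) ⁻¹'
        {p : ℝ × M | p.1 ∈ Ioo τ t ∧ p.2 ∈ A ∧ p.1 ≤ g p.2 ∧ g p.2 < p.1 + e}) ∂vol
      ≤ ENNReal.ofReal ((e ^ (k + 1))⁻¹) *
        ∫⁻ x, (A ∩ {x | g x < t + e}).indicator (fun _ => ENNReal.ofReal e) x ∂vol :=
        mul_le_mul_right (lintegral_mono h2) _
    _ = ENNReal.ofReal ((e ^ (k + 1))⁻¹) * (ENNReal.ofReal e * vol (A ∩ {x | g x < t + e})) := by
        rw [lintegral_indicator hmeas, setLIntegral_const]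
    _ = ENNReal.ofReal ((e ^ k)⁻¹) * vol (A ∩ {x | g x < t + e}) := by
        rw [← mul_assoc, ← ENNReal.ofReal_mul (by positivity)]
        congr 2
        field_simp
        ring

end Basic

section Stage

variable {M : Type} [MetricSpace M] [MeasurableSpace M] [BorelSpace M]
  (vol : Measure M) [IsFiniteMeasure vol] {ι : Type} (f : ι → M → ℝ) (b : ι → ℝ)

/-- An admissible pair (list, subsequence) with the bound `c`. -/
structure Adm (Gen : List (ι × ℝ) → Prop) (k : ℕ) (A : ℝ → Set M) (e : ℕ → ℝ)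
    (L : List (ι × ℝ)) (φ : ℕ → ℕ) (c : ℝ≥0∞) : Prop where
  mono : StrictMono φ
  gen : Gen L
  cov : Covers f L
  rad : ∀ p ∈ L, 0 < p.2 ∧ p.2 < b p.1
  le : ∀ j, wv vol (k + 1) (e (φ j)) (A (e (φ j)) ∩ Slab f (e (φ j)) L) ≤ c

variable {f b}

/-- Existence of a finite competitor. -/
theorem exists_adm [Finite ι] (hf : ∀ i, Continuous (f i)) {Gen : List (ι × ℝ) → Prop}
    (hG0 : Gen []) (hG : ∀ L, Gen L → ∀ i, ∀ᵐ ρ : ℝ, Gen ((i, ρ) :: L))
    (hβ : ∃ β : ι → ℝ, (∀ i, 0 ≤ β i ∧ β i < b i) ∧ ∀ x, ∃ i, f i x < β i)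
    {k : ℕ} {A : ℝ → Set M} (hA : ∀ ε, MeasurableSet (A ε)) {e : ℕ → ℝ} (he : ∀ j, 0 < e j)
    {C : ℝ≥0∞} (hC : C ≠ ⊤) (hAC : ∀ j, wv vol k (e j) (A (e j)) ≤ C) :
    ∃ L φ c, c ≠ ⊤ ∧ Adm vol f b Gen k A e L φ c := by
  obtain ⟨β, hβ, hcov⟩ := hβ
  have key : ∀ is : List ι, ∃ (L : List (ι × ℝ)) (φ : ℕ → ℕ) (c : ℝ≥0∞), c ≠ ⊤ ∧ StrictMono φ ∧
      Gen L ∧ (∀ p ∈ L, β p.1 < p.2 ∧ p.2 < b p.1) ∧ (∀ i ∈ is, ∃ ρ, (i, ρ) ∈ L) ∧
      ∀ j, wv vol (k + 1) (e (φ j)) (A (e (φ j)) ∩ Slab f (e (φ j)) L) ≤ c := by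
    intro is
    induction is with
    | nil =>
      refine ⟨[], id, 0, ENNReal.zero_ne_top, strictMono_id, hG0, by simp, by simp, fun j => ?_⟩
      unfold Slab
      rw [inter_empty, wv_empty]
    | cons i is ih =>
      obtain ⟨L, φ, c, hc, hφ, hL, hr, hi, hb⟩ := ih
      -- the integral of the liminf is finite
      set Y : ℕ → ℝ → ℝ≥0∞ := fun j s => wv vol (k + 1) (e (φ j))
        (A (e (φ j)) ∩ {x | s ≤ f i x ∧ f i x < s + e (φ j)}) with hY
      have hYm : ∀ j, Measurable (Y j) := fun j =>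
        (int_Y vol (hA _) (hf i).measurable k (he (φ j)) 0 0).1
      have hint : ∫⁻ s in Ioo (β i) (b i), liminf (fun j => Y j s) atTop ≤ C := by
        refine (lintegral_liminf_le hYm).trans ?_
        refine (liminf_le_liminf (Eventually.of_forall fun j =>
          ((int_Y vol (hA _) (hf i).measurable k (he (φ j)) (β i) (b i)).2.trans
            (wv_mono vol inter_subset_left)).trans (hAC (φ j)))).trans ?_
        exact le_of_eq (liminf_const C)
      have hfin : ∀ᵐ s ∂(volume.restrict (Ioo (β i) (b i))),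
          liminf (fun j => Y j s) atTop < ⊤ :=
        ae_lt_top (Measurable.liminf hYm) (lt_of_le_of_lt hint hC.lt_top).ne
      have hgen : ∀ᵐ s ∂(volume.restrict (Ioo (β i) (b i))), Gen ((i, s) :: L) :=
        ae_restrict_of_ae (hG L hL i)
      have hmem : ∀ᵐ s ∂(volume.restrict (Ioo (β i) (b i))), s ∈ Ioo (β i) (b i) :=
        ae_restrict_mem measurableSet_Ioo
      have hne : (ae (volume.restrict (Ioo (β i) (b i)))).NeBot := by
        rw [ae_neBot]
        intro h0
        have : volume (Ioo (β i) (b i)) = 0 := by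
          rw [← Measure.restrict_apply_univ, h0]
          rfl
        rw [Real.volume_Ioo, ENNReal.ofReal_eq_zero] at this
        linarith [(hβ i).2]
      obtain ⟨ρ, h1, h2, h3⟩ := (hfin.and (hgen.and hmem)).exists
      obtain ⟨c', hc'1, hc'2⟩ := exists_between h1
      have hfreq : ∃ᶠ j in atTop, Y j ρ < c' := frequently_lt_of_liminf_lt (by isBoundedDefault) hc'1
      obtain ⟨ψ, hψ, hψ2⟩ := extraction_of_frequently_atTop hfreq
      refine ⟨(i, ρ) :: L, φ ∘ ψ, c + c', ENNReal.add_ne_top.mpr ⟨hc, hc'2.ne⟩, hφ.comp hψ, h2,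
        ?_, ?_, ?_⟩
      · intro p hp
        rcases List.mem_cons.mp hp with rfl | hp
        · exact ⟨h3.1, h3.2⟩
        · exact hr p hp
      · intro i' hi'
        rcases List.mem_cons.mp hi' with rfl | hi'
        · exact ⟨ρ, List.mem_cons_self⟩
        · obtain ⟨ρ', h⟩ := hi i' hi'
          exact ⟨ρ', List.mem_cons_of_mem _ h⟩
      · intro j
        have hsub : A (e (φ (ψ j))) ∩ Slab f (e (φ (ψ j))) ((i, ρ) :: L) ⊆
            (A (e (φ (ψ j))) ∩ Slab f (e (φ (ψ j))) L) ∪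
            (A (e (φ (ψ j))) ∩ {x | ρ ≤ f i x ∧ f i x < ρ + e (φ (ψ j))}) := by
          rintro x ⟨hx, hx2⟩
          unfold Slab at hx2
          rcases hx2 with hx2 | hx2
          · exact Or.inr ⟨hx, hx2⟩
          · exact Or.inl ⟨hx, hx2.2⟩
        refine ((wv_mono vol hsub).trans (wv_union_le vol _ _)).trans ?_
        exact add_le_add (hb (ψ j)) (hψ2 j).le
  obtain ⟨is, his⟩ : ∃ is : List ι, ∀ i, i ∈ is := by
    have := Fintype.ofFinite ι
    exact ⟨Finset.univ.toList, fun i => Finset.mem_toList.mpr (Finset.mem_univ i)⟩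
  obtain ⟨L, φ, c, hc, hφ, hL, hr, hi, hb⟩ := key is
  refine ⟨L, φ, c, hc, hφ, hL, ?_, ?_, hb⟩
  · intro x
    obtain ⟨i, hix⟩ := hcov x
    obtain ⟨ρ, hρ⟩ := hi i (his i)
    exact ⟨(i, ρ), hρ, hix.trans (hr _ hρ).1⟩
  · intro p hp
    exact ⟨(hβ p.1).1.trans_lt (hr p hp).1, (hr p hp).2⟩

/-- [SEPSTAGE] -/
theorem sepStageFor : SepStageFor M := by
  intro vol _ ι _ f b hf Gen hG0 hG hβ k A hA e he hlim C hC hAC err herr
  -- a nearly minimal pair
  set S : Set ℝ≥0∞ := {c | ∃ L φ, Adm vol f b Gen k A e L φ c} with hS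
  obtain ⟨L₀, φ₀, c₀, hc₀, hadm₀⟩ := exists_adm vol hf hG0 hG hβ hA he hC hAC
  have hm : sInf S ≠ ⊤ := ne_top_of_le_ne_top hc₀ (sInf_le ⟨L₀, φ₀, hadm₀⟩)
  have hδ : ENNReal.ofReal (err / 2) ≠ 0 := by
    rw [Ne, ENNReal.ofReal_eq_zero]
    linarith
  obtain ⟨c, ⟨L, φ, hadm⟩, hcm⟩ : ∃ c ∈ S, c < sInf S + ENNReal.ofReal (err / 2) :=
    sInf_lt_iff.mp (ENNReal.lt_add_right hm hδ)
  have hctop : c ≠ ⊤ := (hcm.trans_le le_top).ne
  refine ⟨L, φ, hadm.mono, hadm.gen, hadm.cov, hadm.rad, ⟨c, hctop, hadm.le⟩, ?_⟩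
  -- the competitors
  have hcomp : ∀ i : ι, ∀ ρ : ℝ, 0 < ρ → ρ < b i → Gen ((i, ρ) :: L) → ∀ᶠ j in atTop,
      c ≤ wv vol (k + 1) (e (φ j)) (A (e (φ j)) ∩ Slab f (e (φ j)) ((i, ρ) :: L)) +
        ENNReal.ofReal err := by
    intro i ρ h0 h1 hgen
    by_contra hcon
    rw [not_eventually] at hcon
    obtain ⟨ψ, hψ, hψ2⟩ := extraction_of_frequently_atTop hcon
    have hmem : c - ENNReal.ofReal err ∈ S := by
      refine ⟨(i, ρ) :: L, φ ∘ ψ, hadm.mono.comp hψ, hgen, ?_, ?_, fun j => ?_⟩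
      · intro x
        obtain ⟨p, hp, hx⟩ := hadm.cov x
        exact ⟨p, List.mem_cons_of_mem _ hp, hx⟩
      · intro p hp
        rcases List.mem_cons.mp hp with rfl | hp
        · exact ⟨h0, h1⟩
        · exact hadm.rad p hp
      · exact ENNReal.le_sub_of_add_le_right ENNReal.ofReal_ne_top (not_le.mp (hψ2 j)).le
    have h2 : sInf S ≤ c - ENNReal.ofReal err := sInf_le hmem
    have h3 : c < c - ENNReal.ofReal err + ENNReal.ofReal (err / 2) :=
      hcm.trans_le (add_le_add_left h2 _)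
    rcases le_total (ENNReal.ofReal err) c with h4 | h4
    · have h5 : c - ENNReal.ofReal err + ENNReal.ofReal (err / 2) ≤
          c - ENNReal.ofReal err + ENNReal.ofReal err :=
        add_le_add_right (ENNReal.ofReal_le_ofReal (by linarith)) _
      rw [tsub_add_cancel_of_le h4] at h5
      exact absurd (h3.trans_le h5) (lt_irrefl _)
    · -- then the competitors have negative bound: impossible
      obtain ⟨j⟩ : Nonempty ℕ := ⟨0⟩
      have h5 := not_le.mp (hψ2 j)
      have h6 : ENNReal.ofReal err < c := lt_of_le_of_lt le_add_self h5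
      exact absurd (h6.trans_le h4) (lt_irrefl _)
  intro φ' hφ' i τ t hτ hτt htb
  set E : ℕ → ℝ := fun j => e (φ (φ' j)) with hE
  have hE0 : ∀ j, 0 < E j := fun j => he _
  have hElim : Tendsto E atTop (𝓝 0) :=
    hlim.comp (hadm.mono.tendsto_atTop.comp hφ'.tendsto_atTop)
  set Y : ℕ → ℝ → ℝ≥0∞ := fun j s => wv vol (k + 1) (E j)
    (A (E j) ∩ {x | s ≤ f i x ∧ f i x < s + E j}) with hY
  have hYm : ∀ j, Measurable (Y j) := fun j =>
    (int_Y vol (hA _) (hf i).measurable k (hE0 j) 0 0).1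
  -- pointwise inequality
  have hpt : ∀ᵐ s : ℝ, s ∈ Ioo τ t →
      liminf (fun j => wv vol (k + 1) (E j) (A (E j) ∩ Slab f (E j) L ∩ {x | f i x < s})) atTop ≤
        liminf (fun j => Y j s + ENNReal.ofReal err) atTop := by
    filter_upwards [hG L hadm.gen i] with s hs hsI
    have h1 := (hφ'.tendsto_atTop).eventually
      (hcomp i s (hτ.trans_lt hsI.1) (hsI.2.trans htb) hs)
    refine liminf_le_liminf ?_
    filter_upwards [h1] with j hj
    have hB : MeasurableSet {x | f i x < s} := measurableSet_lt (hf i).measurable measurable_const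
    have h2 : wv vol (k + 1) (E j) (A (E j) ∩ Slab f (E j) L ∩ {x | f i x < s}) +
        wv vol (k + 1) (E j) (A (E j) ∩ Slab f (E j) L ∩ {x | f i x < s}ᶜ) ≤ c := by
      rw [wv_split vol _ hB]
      exact hadm.le (φ' j)
    have hsub : A (E j) ∩ Slab f (E j) ((i, s) :: L) ⊆
        (A (E j) ∩ Slab f (E j) L ∩ {x | f i x < s}ᶜ) ∪
        (A (E j) ∩ {x | s ≤ f i x ∧ f i x < s + E j}) := by
      rintro x ⟨hx, hx2⟩
      unfold Slab at hx2
      rcases hx2 with hx2 | hx2
      · exact Or.inr ⟨hx, hx2⟩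
      · exact Or.inl ⟨⟨hx, hx2.2⟩, not_lt.mpr (show s ≤ f i x from hx2.1)⟩
    have h3 : c ≤ wv vol (k + 1) (E j) (A (E j) ∩ Slab f (E j) L ∩ {x | f i x < s}ᶜ) +
        (Y j s + ENNReal.ofReal err) := by
      refine hj.trans ?_
      rw [← add_assoc]
      exact add_le_add_left ((wv_mono vol hsub).trans (wv_union_le vol _ _)) _
    have h4 := h2.trans h3
    rw [add_comm] at h4
    exact (ENNReal.add_le_add_iff_left (wv_ne_top vol _)).mp h4
  -- integration up to t' < t
  have hint : ∀ t' : ℝ, τ < t' → t' < t →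
      ∫⁻ s in Ioo τ t', liminf (fun j => wv vol (k + 1) (E j)
          (A (E j) ∩ Slab f (E j) L ∩ {x | f i x < s})) atTop ≤
        liminf (fun j => wv vol k (E j) (A (E j) ∩ {x | f i x < t})) atTop +
          ENNReal.ofReal (err * (t - τ)) := by
    intro t' ht1 ht2
    have h1 : ∫⁻ s in Ioo τ t', liminf (fun j => wv vol (k + 1) (E j)
          (A (E j) ∩ Slab f (E j) L ∩ {x | f i x < s})) atTop ≤
        ∫⁻ s in Ioo τ t', liminf (fun j => Y j s + ENNReal.ofReal err) atTop := by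
      refine lintegral_mono_ae ?_
      rw [ae_restrict_iff' measurableSet_Ioo]
      filter_upwards [hpt] with s hs hsI
      exact hs ⟨hsI.1, hsI.2.trans ht2⟩
    refine h1.trans ((lintegral_liminf_le (fun j => (hYm j).add_const _)).trans ?_)
    have h2 : ∀ᶠ j in atTop, ∫⁻ s in Ioo τ t', (Y j s + ENNReal.ofReal err) ≤
        wv vol k (E j) (A (E j) ∩ {x | f i x < t}) + ENNReal.ofReal (err * (t - τ)) := by
      have h3 : ∀ᶠ j in atTop, E j < t - t' :=
        hElim.eventually (gt_mem_nhds (by linarith))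
      filter_upwards [h3] with j hj
      rw [lintegral_add_right _ measurable_const, setLIntegral_const, Real.volume_Ioo,
        ← ENNReal.ofReal_mul herr.le]
      refine add_le_add ((int_Y vol (hA _) (hf i).measurable k (hE0 j) τ t').2.trans
        (wv_mono vol ?_)) (ENNReal.ofReal_le_ofReal ?_)
      · rintro x ⟨hx, hx2⟩
        refine ⟨hx, ?_⟩
        change f i x < t
        have : f i x < t' + E j := hx2
        linarith
      · exact mul_le_mul_of_nonneg_left (by linarith) herr.le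
    refine (liminf_le_liminf h2).trans (le_of_eq ?_)
    exact liminf_add_const _ _ _ (by isBoundedDefault) (by isBoundedDefault)
  -- limit t' → t
  have hun : Ioo τ t = ⋃ n : ℕ, Ioo τ (t - (t - τ) / (n + 2)) := by
    ext s
    simp only [mem_Ioo, mem_iUnion]
    constructor
    · rintro ⟨h1, h2⟩
      obtain ⟨n, hn⟩ := exists_nat_gt ((t - τ) / (t - s))
      refine ⟨n, h1, ?_⟩
      have h3 : 0 < t - s := by linarith
      rw [div_lt_iff₀ h3] at hn
      have h4 : (t - τ) / (n + 2) < t - s := by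
        rw [div_lt_iff₀ (by positivity)]
        nlinarith
      linarith
    · rintro ⟨n, h1, h2⟩
      refine ⟨h1, h2.trans_le ?_⟩
      have : 0 ≤ (t - τ) / (n + 2) := div_nonneg (by linarith) (by positivity)
      linarith
  have hdir : Monotone (fun n : ℕ => Ioo τ (t - (t - τ) / (n + 2))) := by
    intro n n' hnn
    refine Ioo_subset_Ioo_right ?_
    have : (t - τ) / ((n' : ℝ) + 2) ≤ (t - τ) / ((n : ℝ) + 2) := by
      refine div_le_div_of_nonneg_left (by linarith) (by positivity) ?_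
      have : (n : ℝ) ≤ n' := by exact_mod_cast hnn
      linarith
    linarith
  change ∫⁻ s in Ioo τ t, liminf (fun j => wv vol (k + 1) (E j)
          (A (E j) ∩ Slab f (E j) L ∩ {x | f i x < s})) atTop ≤ _
  rw [hun, setLIntegral_iUnion_of_directed _ (hdir.directed_le)]
  refine iSup_le fun n => hint _ ?_ ?_
  · have h1 : (t - τ) / ((n : ℝ) + 2) < t - τ := by
      rw [div_lt_iff₀ (by positivity)]
      nlinarith [Nat.cast_nonneg (α := ℝ) n]
    linarith
  · have : 0 < (t - τ) / ((n : ℝ) + 2) := div_pos (by linarith) (by positivity)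
    linarith

end Stage

/-- [SEPSTAGE] -/
theorem sepStage : SepStageStatement := by
  intro M _ _ _ _
  exact sepStageFor

end

end Pool.Agent.Lib.MP_72b724_gt.H99
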