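import Pool.Agent.Lib.MP_72b724_gt.H99.ThmA0
import Pool.Agent.Lib.MP_72b724_gt.Assembly

/-!
# MP_72b724_gt: the case of an infinite growth radius
-/

open scoped ENNReal Topology BigOperators Manifold ContDiff
open MeasureTheory Set Filter Topology Metric Bundle Pool.Agent.Lib.MP_904b2a_gt
  Pool.Agent.Lib.MP_89fcdb_gt

namespace Pool.Agent.Lib.MP_72b724_gt

/-- The simplicial volume vanishes if the growth radius is infinite. -/
def TopCaseStatement : Prop :=
  ∀ (n : ℕ) (M : Type) [MetricSpace M] [CompactSpace M] [ConnectedSpace M]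
      [ChartedSpace (EuclideanSpace ℝ (Fin (n + 1))) M] [IsManifold (𝓡 (n + 1)) ∞ M]
      [RiemannianBundle (fun (x : M) => TangentSpace (𝓡 (n + 1)) x)]
      [IsContMDiffRiemannianBundle (𝓡 (n + 1)) ∞ (EuclideanSpace ℝ (Fin (n + 1)))
        (fun (x : M) => TangentSpace (𝓡 (n + 1)) x)]
      [IsRiemannianManifold (𝓡 (n + 1)) M] [MeasurableSpace M] [BorelSpace M]
      (vol : Measure M), IsRiemannianVolume (n := n + 1) vol →
      ∀ c : Chain (n + 1) M, IsFundamental c →
        growthRadius (n + 1) vol = ⊤ → simplicialVolume c = 0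

namespace H99

theorem simplicialVolume_nonneg {n : ℕ} {X : Type} [TopologicalSpace X] (c : Chain n X) :
    0 ≤ simplicialVolume c := by
  unfold simplicialVolume
  apply Real.sInf_nonneg
  rintro r ⟨b, rfl⟩
  unfold l1norm
  exact Finsupp.sum_nonneg fun _ _ => abs_nonneg _

theorem topCase (hN : NerveStatement) (hA : ThmA0Statement) (hV : RVolStatement)
    (hL : RLenStatement) (hS : LscStatement) (hM : MargStatement) : TopCaseStatement := by
  intro n M _ _ _ _ _ _ _ _ _ _ vol hvol c hc htop
  obtain ⟨K, hK, h1⟩ := hN n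
  obtain ⟨hfin, hnear⟩ := hV (n + 1) M vol hvol
  have hlen := hL (n + 1) M
  have hlsc := hS (n + 1) M
  obtain ⟨hpc, hball, hlip, ⟨c₀, hc₀, hpos⟩, hreg⟩ := hM M hlen hlsc
  have hne : Nonempty M := inferInstance
  -- a radius larger than all radii of balls with the volume growth
  obtain ⟨T, hT0, hT⟩ : ∃ T : ℝ, 0 < T ∧
      vol univ < ENNReal.ofReal (T ^ (n + 1) / ((n + 1).factorial : ℝ)) := by
    have hfac : (0 : ℝ) < (n + 1).factorial := by exact_mod_cast (n + 1).factorial_pos
    refine ⟨((n + 1).factorial : ℝ) * (vol.real univ + 1), by positivity, ?_⟩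
    rw [← ENNReal.ofReal_toReal (measure_ne_top vol univ), ENNReal.ofReal_lt_ofReal_iff_of_nonneg
      ENNReal.toReal_nonneg]
    change vol.real univ < _
    have hv : (0 : ℝ) ≤ vol.real univ := measureReal_nonneg
    have h1f : (1 : ℝ) ≤ (n + 1).factorial := by exact_mod_cast (n + 1).factorial_pos
    have h2 : (1 : ℝ) ≤ ((n + 1).factorial : ℝ) * (vol.real univ + 1) := by nlinarith
    rw [lt_div_iff₀ hfac]
    calc vol.real univ * ((n + 1).factorial : ℝ) <
        ((n + 1).factorial : ℝ) * (vol.real univ + 1) := by nlinarith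
      _ ≤ _ := by
        rw [pow_succ]
        have h3 : (1 : ℝ) ≤ (((n + 1).factorial : ℝ) * (vol.real univ + 1)) ^ n :=
          one_le_pow₀ h2
        nlinarith
  set m' : M → ℝ≥0∞ := fun x => min (margulis x / 2) (ENNReal.ofReal T) with hm'
  have hm'top : ∀ x, m' x ≠ ⊤ := fun x => ne_top_of_le_ne_top ENNReal.ofReal_ne_top (min_le_right _ _)
  set m : M → ℝ := fun x => (m' x).toReal with hm
  have hofm : ∀ x, ENNReal.ofReal (m x) = m' x := fun x => ENNReal.ofReal_toReal (hm'top x)
  have hmpos : ∀ x, 0 < m x := by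
    intro x
    refine ENNReal.toReal_pos ?_ (hm'top x)
    refine (lt_min ?_ (by simpa using hT0)).ne'
    exact lt_of_lt_of_le (ENNReal.div_pos (by simpa using hc₀) (by simp))
      (ENNReal.div_le_div_right (hpos x) 2)
  have hmlip : ∀ x y, m x ≤ m y + dist x y := by
    intro x y
    have h2 : margulis x / 2 ≤ margulis y / 2 + ENNReal.ofReal (dist x y) := by
      refine (ENNReal.div_le_div_right (hlip x y) 2).trans (le_of_eq ?_)
      rw [ENNReal.add_div, ENNReal.ofReal_mul (by norm_num)]
      congr 1
      rw [show ENNReal.ofReal 2 = 2 by simp, ENNReal.mul_div_right_comm,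
        ENNReal.div_self (by simp) (by simp), one_mul]
    have h3 : m' x ≤ m' y + ENNReal.ofReal (dist x y) := by
      change min (margulis x / 2) (ENNReal.ofReal T) ≤
        min (margulis y / 2) (ENNReal.ofReal T) + ENNReal.ofReal (dist x y)
      rcases le_total (margulis y / 2) (ENNReal.ofReal T) with h4 | h4
      · rw [min_eq_left h4]
        exact (min_le_left _ _).trans h2
      · rw [min_eq_right h4]
        exact (min_le_right _ _).trans le_self_add
    rw [← hofm x, ← hofm y, ← ENNReal.ofReal_add (hmpos y).le dist_nonneg] at h3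
    exact (ENNReal.ofReal_le_ofReal_iff (add_nonneg (hmpos y).le dist_nonneg)).mp h3
  have hbad : ∀ x, ¬ ∀ r, 0 < r → r ≤ m x →
      ENNReal.ofReal (r ^ (n + 1) / ((n + 1).factorial : ℝ)) ≤ vol (Metric.ball x r) := by
    intro x hx
    rcases le_total (margulis x / 2) (ENNReal.ofReal T) with hle | hle
    · have hmx : m' x = margulis x / 2 := min_eq_left hle
      have hgr : growthRadius (n + 1) vol ≤ margulis x / 2 := by
        unfold growthRadius
        refine sInf_le ⟨x, rfl, fun r hr hr2 => hx r hr ?_⟩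
        rw [← hmx, ← hofm x] at hr2
        exact (ENNReal.ofReal_le_ofReal_iff (hmpos x).le).mp hr2
      rw [htop] at hgr
      exact absurd (hgr.trans hle) (by simp)
    · have hmx : m x = T := by
        change (min (margulis x / 2) (ENNReal.ofReal T)).toReal = T
        rw [min_eq_right hle, ENNReal.toReal_ofReal hT0.le]
      have h5 := hx T hT0 hmx.ge
      exact absurd (h5.trans (measure_mono (subset_univ _))) (not_le.mpr hT)
  obtain ⟨N, S, s1, s2⟩ := hA (n + 1) (by omega) M vol hnear m hmpos hmlip hbad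
  have hb : simplicialVolume c ≤ K * ((∅ : Finset M).card : ℝ) := by
    refine h1 N M vol ⟨inferInstance, hpc, hball, hlsc⟩ S ∅ (fun x => ?_)
      (fun z hz => absurd hz (Finset.notMem_empty z)) ?_ c hc
    · exact ⟨fun h => absurd h (s2 x), fun h => absurd h (Finset.notMem_empty x)⟩
    · intro k l x hx
      have hr : 0 < S.rad k l := lt_of_le_of_lt dist_nonneg hx
      refine hreg _ _ hr ?_ x hx
      have h6 : ENNReal.ofReal (S.rad k l) < margulis (S.ctr k l) / 2 := by
        refine lt_of_lt_of_le ((ENNReal.ofReal_lt_ofReal_iff (hmpos _)).mpr (s1 k l)) ?_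
        rw [hofm]
        exact min_le_left _ _
      rw [ENNReal.ofReal_mul (by norm_num), show ENNReal.ofReal 2 = 2 by simp, mul_comm]
      exact (ENNReal.lt_div_iff_mul_lt (by simp) (by simp)).mp h6
  rw [Finset.card_empty, Nat.cast_zero, mul_zero] at hb
  exact le_antisymm hb (simplicialVolume_nonneg c)

end H99

end Pool.Agent.Lib.MP_72b724_gt
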