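import Pool.Agent.Lib.MP_72b724_gt.Assembly
import Pool.Agent.Lib.MP_72b724_gt.H99.Top0
import Pool.Agent.Lib.MP_72b724_gt.H99.Eqm
import Pool.Agent.Lib.MP_72b724_gt.H99.Fibre
import Pool.Agent.Lib.MP_72b724_gt.H99.GenList
import Pool.Agent.Lib.MP_72b724_gt.H99.Num
import Pool.Agent.Lib.MP_72b724_gt.H99.SepIter
import Pool.Agent.Lib.MP_72b724_gt.H99.SepStage
import Pool.Agent.Lib.MP_72b724_gt.H1.Crit
import Pool.Agent.Lib.MP_72b724_gt.H1.Dens
import Pool.Agent.Lib.MP_72b724_gt.H6.Base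
import Pool.Agent.Lib.MP_72b724_gt.H6.PrismOp
import Pool.Agent.Lib.MP_72b724_gt.H6.Step
import Pool.Agent.Lib.MP_72b724_gt.H7.Act
import Pool.Agent.Lib.MP_72b724_gt.H7.Conn
import Pool.Agent.Lib.MP_72b724_gt.H7.Kan
import Pool.Agent.Lib.MP_72b724_gt.H15.RLen
import Pool.Agent.Lib.MP_72b724_gt.H36.Omega
import Pool.Agent.Lib.MP_72b724_gt.H36.Rb
import Pool.Agent.Lib.MP_72b724_gt.H39.Htpy
import Pool.Agent.Lib.MP_72b724_gt.H40.Label
import Pool.Agent.Lib.MP_72b724_gt.H47.Prism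
import Pool.Agent.Lib.MP_72b724_gt.H51.Amen
import Pool.Agent.Lib.MP_72b724_gt.H51.HB
import Pool.Agent.Lib.MP_72b724_gt.H53.Avg
import Pool.Agent.Lib.MP_72b724_gt.H53.Exact
import Pool.Agent.Lib.MP_72b724_gt.H53.ItMean
import Pool.Agent.Lib.MP_72b724_gt.H57.ThmA
import Pool.Agent.Lib.MP_72b724_gt.H57.Univ
import Pool.Agent.Lib.MP_72b724_gt.H62.Reg
import Pool.Agent.Lib.MP_72b724_gt.H62.SepThm
import Pool.Agent.Lib.MP_72b724_gt.H63.LocLin
import Pool.Agent.Lib.MP_72b724_gt.H63.Lsc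
import Pool.Agent.Lib.MP_72b724_gt.H65.Stage
import Pool.Agent.Lib.MP_72b724_gt.H68.Alt
import Pool.Agent.Lib.MP_72b724_gt.H68.Top
import Pool.Agent.Lib.MP_72b724_gt.H74.RVol
import Pool.Agent.Lib.MP_72b724_gt.H80.Chain
import Pool.Agent.Lib.MP_72b724_gt.H80.Hat
import Pool.Agent.Lib.MP_72b724_gt.H86.Marg

/-!
# MP_72b724_gt: everything together
-/

namespace Pool.Agent.Lib.MP_72b724_gt.H99

theorem sepThm : SepThmStatement :=
  H62.sepThm (sepIter sepStage) (genList H1.crit fibre) fibre H1.dens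

theorem contraction : ContractionStatement :=
  contraction_of (H65.stage H80.hat) (H53.avg H53.exact H53.itMean H51.abMean) H47.prism
    (H6.step H6.prismOp) H6.base

theorem comp : CompStatement := comp_of eqMean H80.chain H68.alt H39.htpy

theorem omegaS : OmegaStatement :=
  H36.omega (H40.label H63.locLin) H62.reg H7.covAct H7.covKan H7.covConn H51.amen H36.rbExp
    contraction comp

theorem nerve : NerveStatement :=
  nerve_of omegaS (H68.top H36.rbCoc (H57.univ H36.rbCoc)) H51.hb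

theorem mainStatement : MainStatement :=
  main_of nerve (H57.thmA sepThm num) H74.rvol H15.rlen H63.lsc H86.marg

theorem topCaseStatement : TopCaseStatement :=
  topCase nerve (thmA0 sepThm) H74.rvol H15.rlen H63.lsc H86.marg

end Pool.Agent.Lib.MP_72b724_gt.H99
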