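import Pool.Agent.Lib.MP_72b724_gt.H57.ThmA

/-!
# MP_72b724_gt: Theorem A when the growth radius is infinite
-/

open scoped ENNReal Topology BigOperators
open MeasureTheory Set Filter Topology Metric

namespace Pool.Agent.Lib.MP_72b724_gt

/-- If no point has the volume growth up to the radius `m x`, there is a separating system without
crossing points. -/
def ThmA0Statement : Prop :=
  ∀ n : ℕ, 1 ≤ n → ∀ (M : Type) [MetricSpace M] [CompactSpace M] [MeasurableSpace M]
      [BorelSpace M] [Nonempty M] (vol : Measure M) [IsFiniteMeasure vol], NearEuc n M vol →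
    ∀ m : M → ℝ, (∀ x, 0 < m x) → (∀ x y, m x ≤ m y + dist x y) →
      (∀ x, ¬ ∀ r, 0 < r → r ≤ m x → ENNReal.ofReal (r ^ n / (n.factorial : ℝ)) ≤
        vol (Metric.ball x r)) →
    ∃ (N : ℕ) (S : SepSys n N M), (∀ k l, S.rad k l < m (S.ctr k l)) ∧
      ∀ x, ¬ ∀ k, x ∈ S.wall k

namespace H99

theorem thmA0 (hS : SepThmStatement) : ThmA0Statement := by
  classical
  intro n hn M _ _ _ _ _ vol _ hE m hmpos hmlip H1
  have hfac : (0 : ℝ) < n.factorial := by exact_mod_cast n.factorial_pos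
  obtain ⟨x₀⟩ := ‹Nonempty M›
  have hm : Continuous m := (LipschitzWith.of_le_add hmlip).continuous
  obtain ⟨μ0, hμ0, hμ⟩ : ∃ μ0 : ℝ, 0 < μ0 ∧ ∀ x, μ0 ≤ m x := by
    obtain ⟨y, -, hy⟩ := isCompact_univ.exists_isMinOn ⟨x₀, mem_univ _⟩ hm.continuousOn
    exact ⟨m y, hmpos y, fun x => hy (mem_univ x)⟩
  obtain ⟨μ1, hμ1⟩ : ∃ μ1 : ℝ, ∀ x, m x ≤ μ1 := by
    obtain ⟨y, -, hy⟩ := isCompact_univ.exists_isMaxOn ⟨x₀, mem_univ _⟩ hm.continuousOn
    exact ⟨m y, fun x => hy (mem_univ x)⟩
  have hμ10 : 0 < μ1 := (hmpos x₀).trans_le (hμ1 x₀)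
  obtain ⟨ε0, hε0, hgood⟩ := H57.good_lemma n vol m hmlip (R := 3 * μ1) (by positivity)
    (fun x hx => absurd hx (H1 x))
  set η : ℝ := min (μ0 / 2) ε0 with hη
  have hη0 : 0 < η := lt_min (by positivity) hε0
  have hη1 : η < μ0 := (min_le_left _ _).trans_lt (by linarith)
  have hη2 : η ≤ ε0 := min_le_right _ _
  obtain ⟨net0, -, hfin, hcov⟩ := (isCompact_univ (X := M)).finite_cover_balls hη0
  set net : Finset M := hfin.toFinset with hnet
  have hcov' : ∀ y : M, ∃ x ∈ net, dist y x < η := by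
    intro y
    have := hcov (mem_univ y)
    rw [mem_iUnion₂] at this
    obtain ⟨x, hx, hy⟩ := this
    exact ⟨x, by rw [hnet, Set.Finite.mem_toFinset]; exact hx, hy⟩
  let f : ↥net → M → ℝ := fun x y => dist y x.1
  let b : ↥net → ℝ := fun x => m x.1
  have hf : ∀ i, LipschitzWith 1 (f i) := fun x => LipschitzWith.dist_left x.1
  have hβ : ∃ β : ↥net → ℝ, (∀ i, 0 ≤ β i ∧ β i < b i) ∧ ∀ x, ∃ i, f i x < β i := by
    refine ⟨fun _ => η, fun x => ⟨hη0.le, hη1.trans_le (hμ x.1)⟩, ?_⟩
    intro y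
    obtain ⟨x, hx, hy⟩ := hcov' y
    exact ⟨⟨x, hx⟩, hy⟩
  obtain ⟨N, u, Z, hu, hcovu, hwall, hsimple, hcount⟩ := hS n hn M vol hE ↥net f b hf hβ ε0 hε0
  have hcr : ∀ k l, ∃ (ctr : M) (rad : ℝ), (∀ x, u k l x ≤ 0 → dist x ctr < rad) ∧
      rad < m ctr := by
    intro k l
    rcases hu k l with ⟨x, ρ, hρ0, hρb, hul⟩ | hul
    · have hρb' : ρ < m x.1 := hρb
      refine ⟨x.1, (ρ + m x.1) / 2, ?_, by linarith⟩
      intro y hy
      rw [hul] at hy
      have : dist y x.1 - ρ ≤ 0 := hy
      linarith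
    · refine ⟨x₀, 0, ?_, hmpos _⟩
      intro y hy
      rw [hul] at hy
      exact absurd hy (by norm_num)
  choose ctr rad hcr1 hcr2 using hcr
  have hlip : ∀ k l, LipschitzWith 1 (u k l) := by
    intro k l
    rcases hu k l with ⟨i, ρ, -, -, hul⟩ | hul
    · rw [hul]
      apply LipschitzWith.of_le_add
      intro x y
      have := (hf i).le_add_mul x y
      simp only [NNReal.coe_one, one_mul] at this
      linarith
    · rw [hul]
      exact LipschitzWith.const' _
  have hZ : Z = ∅ := by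
    rw [Finset.eq_empty_iff_forall_notMem]
    intro z hz
    have hzm : 3 * μ1 / 2 ≤ m z := by
      apply hgood
      intro r hr hrm
      obtain ⟨x, hx, hzx⟩ := hcov' z
      have h1 : m z ≤ m x + dist z x := hmlip z x
      have h2 := hcount ⟨x, hx⟩ η (r - η) {z} (by simpa using hz) (by
        intro z' hz'
        rw [Finset.mem_singleton] at hz'
        subst hz'
        exact hzx.le) hη0.le (by linarith) (by
          change r - η < m x
          linarith)
      have h3 := H57.real_of_ofReal_le hε0.le h2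
      rw [Finset.card_singleton, Nat.cast_one, one_mul] at h3
      have h4 : (r - 2 * ε0) ^ n / (n.factorial : ℝ) ≤ (r - η - η) ^ n / (n.factorial : ℝ) := by
        apply div_le_div_of_nonneg_right _ hfac.le
        apply pow_le_pow_left₀ (by linarith)
        linarith
      refine h4.trans (h3.trans (add_le_add (measureReal_mono ?_ (measure_ne_top _ _)) le_rfl))
      intro y hy
      have hy' : dist y x < r - η := hy
      rw [mem_ball]
      calc dist y z ≤ dist y x + dist x z := dist_triangle _ _ _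
        _ < r := by rw [dist_comm x z]; linarith
    have := hμ1 z
    linarith
  refine ⟨N, ⟨u, ctr, rad, hlip, hcovu, hcr1⟩, hcr2, ?_⟩
  intro x hx
  have := (hwall x).1 hx
  rw [hZ] at this
  exact absurd this (Finset.notMem_empty x)

end H99

end Pool.Agent.Lib.MP_72b724_gt
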