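import Pool.Agent.Lib.MP_72b724_gt.H51.RVol

/-!
# MP_72b724_gt: existence and uniqueness of the Riemannian volume
-/

open scoped Manifold ContDiff ENNReal Topology
open MeasureTheory Set Filter Bundle

namespace Pool.Agent.Lib.MP_72b724_gt.H99

theorem vol_unique {n : ℕ} {M : Type} [MetricSpace M] [ChartedSpace (EuclideanSpace ℝ (Fin n)) M]
    [RiemannianBundle (fun (x : M) => TangentSpace (𝓡 n) x)] [MeasurableSpace M] [BorelSpace M]
    [CompactSpace M] (μ ν : Measure M) (hμ : IsRiemannianVolume (n := n) μ)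
    (hν : IsRiemannianVolume (n := n) ν) : μ = ν := by
  obtain ⟨t, ht, htc⟩ := TopologicalSpace.countable_cover_nhds
    (f := fun x : M => (chartAt (EuclideanSpace ℝ (Fin n)) x).source)
    (fun x => (chartAt (EuclideanSpace ℝ (Fin n)) x).open_source.mem_nhds (mem_chart_source _ x))
  rw [Measure.ext_iff_of_biUnion_eq_univ ht htc]
  intro x _
  ext A hA
  have hs : MeasurableSet (chartAt (EuclideanSpace ℝ (Fin n)) x).source :=
    (chartAt (EuclideanSpace ℝ (Fin n)) x).open_source.measurableSet
  rw [Measure.restrict_apply hA, Measure.restrict_apply hA,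
    hμ x _ (hA.inter hs) inter_subset_right, hν x _ (hA.inter hs) inter_subset_right]

theorem existsUnique_vol (n : ℕ) (M : Type) [MetricSpace M] [CompactSpace M]
    [ChartedSpace (EuclideanSpace ℝ (Fin n)) M] [IsManifold (𝓡 n) ∞ M]
    [RiemannianBundle (fun (x : M) => TangentSpace (𝓡 n) x)]
    [IsContMDiffRiemannianBundle (𝓡 n) ∞ (EuclideanSpace ℝ (Fin n))
      (fun (x : M) => TangentSpace (𝓡 n) x)]
    [MeasurableSpace M] [BorelSpace M] :
    ∃! vol : Measure M, IsRiemannianVolume (n := n) vol := by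
  obtain ⟨vol, hvol⟩ := H51.exists_riemannianVolume (n := n) (M := M)
  exact ⟨vol, hvol, fun ν hν => vol_unique ν vol hν hvol⟩

end Pool.Agent.Lib.MP_72b724_gt.H99
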